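import Pool.Agent.Helper10.Qc.Stmts

set_option autoImplicit false

/-! # F1: sum over a coset of the cubic lattice -/

namespace Pool.Agent.Helper10.Qc

open Pool.Agent.Helper19.Qh Pool.Agent.Helper19.Qc

/-- imaginary quaternions -/
noncomputable def f1_q (a b c : ℝ) : Q := ⟨0, a, b, c⟩

theorem f1_norm (a b c : ℝ) : ‖f1_q a b c‖ ^ 2 = a ^ 2 + b ^ 2 + c ^ 2 := by
  rw [sq, ← Quaternion.normSq_eq_norm_mul_self, Quaternion.normSq_def']
  simp [f1_q]

theorem f1_small (h3 : ST_C2) (B : ℝ) (hB : B ≤ 3 / 4) (c : Fin 3 → ℝ) :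
    S3 B c ≤ ENNReal.ofReal ((max B 0) ^ 2) := by
  have hd : ∀ i j : Fin 3 → ℤ,
      ‖f1_q (c 0 + i 0) (c 1 + i 1) (c 2 + i 2) - f1_q (c 0 + j 0) (c 1 + j 1) (c 2 + j 2)‖ ^ 2
        = (((i 0 - j 0) ^ 2 + (i 1 - j 1) ^ 2 + (i 2 - j 2) ^ 2 : ℤ) : ℝ) := by
    intro i j
    have e : f1_q (c 0 + i 0) (c 1 + i 1) (c 2 + i 2) -
        f1_q (c 0 + j 0) (c 1 + j 1) (c 2 + j 2) =
        f1_q ((i 0 : ℝ) - j 0) ((i 1 : ℝ) - j 1) ((i 2 : ℝ) - j 2) := by
      apply Quaternion.ext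
      · rw [Quaternion.re_sub]
        show (0 : ℝ) - 0 = 0
        ring
      · rw [Quaternion.imI_sub]
        show (c 0 + i 0) - (c 0 + j 0) = (i 0 : ℝ) - j 0
        ring
      · rw [Quaternion.imJ_sub]
        show (c 1 + i 1) - (c 1 + j 1) = (i 1 : ℝ) - j 1
        ring
      · rw [Quaternion.imK_sub]
        show (c 2 + i 2) - (c 2 + j 2) = (i 2 : ℝ) - j 2
        ring
    rw [e, f1_norm]
    push_cast
    ring
  have hpos : ∀ i j : Fin 3 → ℤ, i ≠ j →
      1 ≤ (i 0 - j 0) ^ 2 + (i 1 - j 1) ^ 2 + (i 2 - j 2) ^ 2 := by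
    intro i j hij
    by_contra hlt
    apply hij
    have h0 := sq_nonneg (i 0 - j 0)
    have h1 := sq_nonneg (i 1 - j 1)
    have h2 := sq_nonneg (i 2 - j 2)
    have e0 : (i 0 - j 0) ^ 2 = 0 := by omega
    have e1 : (i 1 - j 1) ^ 2 = 0 := by omega
    have e2 : (i 2 - j 2) ^ 2 = 0 := by omega
    rw [sq_eq_zero_iff, sub_eq_zero] at e0 e1 e2
    funext x
    fin_cases x
    · exact e0
    · exact e1
    · exact e2
  have h := h3 (Fin 3 → ℤ) (fun n => f1_q (c 0 + n 0) (c 1 + n 1) (c 2 + n 2))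
    (fun n => if Even (n 0 + n 1 + n 2) then 0 else 1) B hB ?_ ?_
  · have e : S3 B c = ∑' n : Fin 3 → ℤ, ENNReal.ofReal
        ((max (B - ‖f1_q (c 0 + n 0) (c 1 + n 1) (c 2 + n 2)‖ ^ 2) 0) ^ 2) := by
      unfold S3
      apply tsum_congr
      intro n
      rw [f1_norm]
    rw [e]
    exact h
  · intro i j hij
    rw [hd]
    exact_mod_cast hpos i j hij
  · intro i j hij hcol
    rw [hd]
    have h1 := hpos i j hij
    have hpar : Even ((i 0 + i 1 + i 2) - (j 0 + j 1 + j 2)) := by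
      by_cases hi : Even (i 0 + i 1 + i 2)
      · by_cases hj : Even (j 0 + j 1 + j 2)
        · exact hi.sub hj
        · simp [hi, hj] at hcol
      · by_cases hj : Even (j 0 + j 1 + j 2)
        · simp [hi, hj] at hcol
        · exact (Int.not_even_iff_odd.1 hi).sub_odd (Int.not_even_iff_odd.1 hj)
    have hev : Even ((i 0 - j 0) ^ 2 + (i 1 - j 1) ^ 2 + (i 2 - j 2) ^ 2) := by
      have hk : Even ((i 0 - j 0) ^ 2 + (i 1 - j 1) ^ 2 + (i 2 - j 2) ^ 2 -
          ((i 0 + i 1 + i 2) - (j 0 + j 1 + j 2))) := by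
        have a0 := Int.even_mul_pred_self (i 0 - j 0)
        have a1 := Int.even_mul_pred_self (i 1 - j 1)
        have a2 := Int.even_mul_pred_self (i 2 - j 2)
        have := (a0.add a1).add a2
        have e : (i 0 - j 0) ^ 2 + (i 1 - j 1) ^ 2 + (i 2 - j 2) ^ 2 -
          ((i 0 + i 1 + i 2) - (j 0 + j 1 + j 2)) = (i 0 - j 0) * (i 0 - j 0 - 1) +
          (i 1 - j 1) * (i 1 - j 1 - 1) + (i 2 - j 2) * (i 2 - j 2 - 1) := by ring
        rw [e]
        exact this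
      have := hk.add hpar
      rwa [sub_add_cancel] at this
    obtain ⟨m, hm⟩ := hev
    have h2 : 2 ≤ (i 0 - j 0) ^ 2 + (i 1 - j 1) ^ 2 + (i 2 - j 2) ^ 2 := by omega
    exact_mod_cast h2

theorem f1_tab (h1 : ST_FOLD) (h2 : ST_FB) (h3 : ST_C2) (k : ℕ) (hk : 6 ≤ k) (hk2 : k ≤ 13)
    (c : Fin 3 → ℝ) : S3 ((k : ℝ) / 8) c ≤ ENNReal.ofReal ((tabF k : ℝ) / 10000) := by
  by_cases h6 : k = 6
  · subst h6
    refine le_trans (f1_small h3 _ (by norm_num) c) ?_
    apply ENNReal.ofReal_le_ofReal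
    rw [max_eq_left (by norm_num)]
    norm_num [tabF]
  · obtain ⟨c', g0, g1, g2, g3, g4⟩ := h1 ((k : ℝ) / 8) c
    rw [g4]
    have hrec : recF k 30 0 512 0 512 0 512 = true := by
      have h7 : 7 ≤ k := by omega
      interval_cases k
      · exact chkF7
      · exact chkF8
      · exact chkF9
      · exact chkF10
      · exact chkF11
      · exact chkF12
      · exact chkF13
    apply h2 k 30 0 512 0 512 0 512 hk2 (le_refl _) (le_refl _) (le_refl _) hrec c' g0 g1 g2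
    · constructor <;> push_cast <;> linarith
    · constructor <;> push_cast <;> linarith
    · constructor <;> push_cast <;> linarith

theorem f1_conv (u v t : ℝ) (h0 : 0 ≤ t) (h1 : t ≤ 1) :
    ((1 - t) * u + t * v) ^ 2 ≤ (1 - t) * u ^ 2 + t * v ^ 2 := by
  have : 0 ≤ t * (1 - t) * (u - v) ^ 2 :=
    mul_nonneg (mul_nonneg h0 (by linarith)) (sq_nonneg _)
  linarith

theorem f1_pt (B m a b t : ℝ) (h0 : 0 ≤ t) (h1 : t ≤ 1) (hB : B = (1 - t) * a + t * b) :
    (max (B - m) 0) ^ 2 ≤ (1 - t) * (max (a - m) 0) ^ 2 + t * (max (b - m) 0) ^ 2 := by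
  refine le_trans ?_ (f1_conv _ _ t h0 h1)
  apply pow_le_pow_left₀ (le_max_right _ _)
  apply max_le
  · have e1 := mul_le_mul_of_nonneg_left (le_max_left (a - m) 0) (show 0 ≤ 1 - t by linarith)
    have e2 := mul_le_mul_of_nonneg_left (le_max_left (b - m) 0) h0
    rw [hB]
    linarith
  · have e1 := mul_nonneg (show 0 ≤ 1 - t by linarith) (le_max_right (a - m) 0)
    have e2 := mul_nonneg h0 (le_max_right (b - m) 0)
    linarith

theorem f1_mid (h1 : ST_FOLD) (h2 : ST_FB) (h3 : ST_C2) (k : ℕ) (hk : 6 ≤ k) (hk2 : k ≤ 12)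
    (B : ℝ) (c : Fin 3 → ℝ) (hB1 : (k : ℝ) / 8 ≤ B) (hB2 : B ≤ ((k : ℝ) + 1) / 8) :
    S3 B c ≤ ENNReal.ofReal (ell k B) := by
  set t : ℝ := 8 * B - k with ht
  have h0 : 0 ≤ t := by linarith
  have h1' : t ≤ 1 := by linarith
  have hB : B = (1 - t) * ((k : ℝ) / 8) + t * (((k + 1 : ℕ) : ℝ) / 8) := by
    push_cast
    rw [ht]
    ring
  have a1 := f1_tab h1 h2 h3 k hk (by omega) c
  have a2 := f1_tab h1 h2 h3 (k + 1) (by omega) (by omega) c
  have hle : S3 B c ≤ ENNReal.ofReal (1 - t) * S3 ((k : ℝ) / 8) c +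
      ENNReal.ofReal t * S3 (((k + 1 : ℕ) : ℝ) / 8) c := by
    unfold S3
    rw [← ENNReal.tsum_mul_left, ← ENNReal.tsum_mul_left, ← ENNReal.tsum_add]
    apply ENNReal.tsum_le_tsum
    intro n
    rw [← ENNReal.ofReal_mul (by linarith), ← ENNReal.ofReal_mul h0,
      ← ENNReal.ofReal_add (mul_nonneg (by linarith) (sq_nonneg _))
        (mul_nonneg h0 (sq_nonneg _))]
    apply ENNReal.ofReal_le_ofReal
    exact f1_pt _ _ _ _ t h0 h1' hB
  refine le_trans hle (le_trans (add_le_add (mul_le_mul_right a1 _)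
    (mul_le_mul_right a2 _)) ?_)
  rw [← ENNReal.ofReal_mul (by linarith), ← ENNReal.ofReal_mul h0,
    ← ENNReal.ofReal_add (mul_nonneg (by linarith) (by positivity))
      (mul_nonneg h0 (by positivity))]
  apply ENNReal.ofReal_le_ofReal
  unfold ell
  rw [ht]
  apply le_of_eq
  ring

theorem f1_ell (k : ℕ) (hk : 6 ≤ k) (hk2 : k ≤ 12) (B : ℝ) : ell k B ≤ Psi 1 B := by
  interval_cases k <;> simp [Psi]

theorem st_F1 (h1 : ST_FOLD) (h2 : ST_FB) (h3 : ST_C2) : ST_F1 := by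
  intro B c hB
  by_cases hs : B ≤ 3 / 4
  · refine le_trans (f1_small h3 B hs c) (ENNReal.ofReal_le_ofReal ?_)
    simp [Psi]
  · have hs' : 3 / 4 < B := not_le.1 hs
    have hex : ∃ k : ℕ, 6 ≤ k ∧ k ≤ 12 ∧ (k : ℝ) / 8 ≤ B ∧ B ≤ ((k : ℝ) + 1) / 8 := by
      by_cases h12 : B ≤ 12 / 8
      · refine ⟨⌊8 * B⌋₊, ?_, ?_, ?_, ?_⟩
        · apply Nat.le_floor
          push_cast
          linarith
        · have : ⌊8 * B⌋₊ ≤ ⌊(12 : ℝ)⌋₊ := Nat.floor_le_floor (by linarith)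
          have e : ⌊(12 : ℝ)⌋₊ = 12 := by norm_num
          omega
        · have := Nat.floor_le (show 0 ≤ 8 * B by linarith)
          linarith
        · have := (Nat.lt_floor_add_one (8 * B)).le
          linarith
      · refine ⟨12, by norm_num, le_refl _, ?_, ?_⟩
        · push_cast
          linarith
        · push_cast
          linarith
    obtain ⟨k, k1, k2, k3, k4⟩ := hex
    exact le_trans (f1_mid h1 h2 h3 k k1 k2 B c k3 k4)
      (ENNReal.ofReal_le_ofReal (f1_ell k k1 k2 B))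

end Pool.Agent.Helper10.Qc
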